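import Pool.Agent.Lib_helper30.MOD.Kl
import Pool.Agent.Lib_helper14.MOD.Tail
import Pool.Agent.Lib_helper45.MOD.Fin

/-!
# Assembly of (MOD) from (K*), the layer formula for `In` and `tau 0 ≤ T2`
-/

open scoped BigOperators ComplexOrder Kronecker MatrixOrder Topology
open MeasureTheory Set Matrix Filter

namespace Pool.Agent.RC

open Pool.Agent.Lib_helper98.Renyi

variable {ι κ : Type} [Fintype ι] [DecidableEq ι] [Fintype κ] [DecidableEq κ]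

/-- (K*) at the exponent `p` for all strict pairs -/
def KStar (p : ℝ) : Prop :=
  ∀ (ι κ : Type) [Fintype ι] [DecidableEq ι] [Fintype κ] [DecidableEq κ]
    (A₁ D₁ : Matrix ι ι ℂ) (A₂ D₂ : Matrix κ κ ℂ), SPair A₁ D₁ → SPair A₂ D₂ → ∀ z : ℝ, 0 < z →
    tau p A₁ D₁ z * tau p A₂ D₂ z - z * (1 + z) / p * (eta p A₁ D₁ z * eta p A₂ D₂ z) ≤
      tau p (A₁ ⊗ₖ A₂) (D₁ ⊗ₖ D₂) z

/-- the layer formula for `In` at the exponent `p` -/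
def LayerIn (p : ℝ) : Prop :=
  ∀ (ι : Type) [Fintype ι] [DecidableEq ι] (A D : Matrix ι ι ℂ), IsPair A D →
    ∀ n : ℕ, Even n → p < (n : ℝ) →
    IntegrableOn (fun z : ℝ => z ^ ((n : ℝ) - p - 1) * (1 + z) ^ (-(n : ℝ) - 1) * tau p A D z)
      (Ioi 0) ∧
    p * In p A D n =
      n * ∫ z in Ioi (0 : ℝ), z ^ ((n : ℝ) - p - 1) * (1 + z) ^ (-(n : ℝ) - 1) * tau p A D z

/-- `Tr |D|^p ≤ T2` at the exponent `p` -/
def TauZero (p : ℝ) : Prop :=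
  ∀ (ι : Type) [Fintype ι] [DecidableEq ι] (A D : Matrix ι ι ℂ), IsPair A D →
    tau p A D 0 ≤ T2 p A D

theorem trF_unit' (f : ℝ → ℝ) (c : ℝ) : trF f ((c : ℂ) • (1 : Matrix Unit Unit ℂ)) = f c := by
  have hh : ((c : ℂ) • (1 : Matrix Unit Unit ℂ)).IsHermitian := by
    rw [dg_smul_one]
    exact dg_isHermitian _
  unfold trF
  rw [dif_pos hh]
  have h1 := hh.trace_eq_sum_eigenvalues
  rw [Matrix.trace_smul, Matrix.trace_one] at h1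
  simp only [Fintype.card_unique, Nat.cast_one, smul_eq_mul, mul_one, Finset.univ_unique,
    Finset.sum_singleton] at h1
  rw [Finset.univ_unique, Finset.sum_singleton]
  have h2 : ((c : ℝ) : ℂ) = ((hh.eigenvalues default : ℝ) : ℂ) := h1
  exact congrArg f (Complex.ofReal_inj.1 h2).symm

/-- the unit pair has `tau = 1` -/
theorem tau_unit_pair {p z : ℝ} (hp : 0 < p) (hz : 0 ≤ z) :
    tau p (1 : Matrix Unit Unit ℂ) 1 z = 1 := by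
  unfold tau
  have e1 : (1 : Matrix Unit Unit ℂ) - (z : ℂ) • (1 - 1) = ((1 : ℝ) : ℂ) • 1 := by
    rw [sub_self, smul_zero, sub_zero, Complex.ofReal_one, one_smul]
  have e2 : -(1 : Matrix Unit Unit ℂ) - (z : ℂ) • (1 + 1) = ((-1 - 2 * z : ℝ) : ℂ) • 1 := by
    push_cast
    rw [sub_smul, neg_smul, one_smul, smul_add, ← add_smul]
    congr 2
    ring
  rw [e1, e2, trF_unit', trF_unit']
  unfold INE.pp
  rw [max_eq_left zero_le_one, Real.one_rpow, max_eq_right (by linarith),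
    Real.zero_rpow hp.ne', add_zero]

/-- the normalisation -/
theorem bet_layer {p : ℝ} (hp : 0 < p) (hL : LayerIn p) {n : ℕ} (hn : Even n)
    (hpn : p < (n : ℝ)) :
    p * bet p n = n * ∫ z in Ioi (0 : ℝ), z ^ ((n : ℝ) - p - 1) * (1 + z) ^ (-(n : ℝ) - 1) := by
  have h := (hL Unit 1 1 pair_one n hn hpn).2
  rw [In_one] at h
  rw [h]
  congr 1
  apply setIntegral_congr_fun measurableSet_Ioi
  intro z hz
  have hz' : (0 : ℝ) < z := hz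
  show z ^ ((n : ℝ) - p - 1) * (1 + z) ^ (-(n : ℝ) - 1) * tau p (1 : Matrix Unit Unit ℂ) 1 z = _
  rw [tau_unit_pair hp hz'.le, mul_one]

/-- `m - tau` has the supergradient `eta` -/
theorem superGrad_tau {p : ℝ} (hp : 1 < p) {A D : Matrix ι ι ℂ} (h : IsPair A D) (m : ℝ) :
    Pool.Agent.Lib_helper14.MOD.SuperGrad (fun z => m - tau p A D z) (eta p A D) := by
  intro z z' _ _
  have := tau_tangent hp h z z'
  show m - tau p A D z' ≤ m - tau p A D z + eta p A D z * (z' - z)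
  linarith

/-- (MOD) for one pair of pairs, from (K*) for it -/
theorem mod_pair {p : ℝ} (hp1 : 1 < p) (hp3 : p ≤ 3) (hL : LayerIn p) (hT : TauZero p)
    (A₁ D₁ : Matrix ι ι ℂ) (h₁ : IsPair A₁ D₁) (A₂ D₂ : Matrix κ κ ℂ) (h₂ : IsPair A₂ D₂)
    (hK : ∀ z : ℝ, 0 < z →
      tau p A₁ D₁ z * tau p A₂ D₂ z - z * (1 + z) / p * (eta p A₁ D₁ z * eta p A₂ D₂ z) ≤
        tau p (A₁ ⊗ₖ A₂) (D₁ ⊗ₖ D₂) z) (m : ℕ) :
    T2 p A₁ D₁ * Ts p A₂ D₂ (m + 1) + Ts p A₁ D₁ (m + 1) * T2 p A₂ D₂ -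
      T2 p A₁ D₁ * T2 p A₂ D₂ ≤ Ts p (A₁ ⊗ₖ A₂) (D₁ ⊗ₖ D₂) (m + 1) := by
  have hp0 : 0 < p := by linarith
  set n : ℕ := 2 * (m + 2) with hn
  have hev : Even n := ⟨m + 2, by omega⟩
  have hn4 : (4 : ℝ) ≤ (n : ℝ) := by
    rw [hn]
    push_cast
    have : (0 : ℝ) ≤ m := Nat.cast_nonneg m
    linarith
  have hpn : p < (n : ℝ) := by linarith
  have hb : 0 < bet p n := bet_pos p n hp0 hpn
  have l1 := (hL ι A₁ D₁ h₁ n hev hpn).2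
  have l2 := (hL κ A₂ D₂ h₂ n hev hpn).2
  obtain ⟨i12, l12⟩ := hL (ι × κ) (A₁ ⊗ₖ A₂) (D₁ ⊗ₖ D₂) (h₁.kron h₂) n hev hpn
  have l0 := bet_layer hp0 hL hev hpn
  have key := Pool.Agent.Lib_helper14.MOD.mod_of_kstar (tV := tau p A₁ D₁) (tW := tau p A₂ D₂)
    (tVW := tau p (A₁ ⊗ₖ A₂) (D₁ ⊗ₖ D₂)) (u := eta p A₁ D₁) (v := eta p A₂ D₂) (p := p)
    (n := (n : ℝ)) (m := T2 p A₁ D₁) (m' := T2 p A₂ D₂) hp1.le (by linarith)
    (superGrad_tau hp1 h₁ _) (superGrad_tau hp1 h₂ _)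
    (fun z _ => eta_nonneg hp0.le h₁ z) (fun z _ => eta_nonneg hp0.le h₂ z)
    (fun z _ => tau_nonneg p A₁ D₁ z) (fun z _ => tau_nonneg p A₂ D₂ z)
    (hT ι A₁ D₁ h₁) (hT κ A₂ D₂ h₂) hK i12
  have hn0 : (0 : ℝ) ≤ (n : ℝ) := by linarith
  have k2 := mul_le_mul_of_nonneg_left key hn0
  have k3 : p * (T2 p A₁ D₁ * In p A₂ D₂ n + In p A₁ D₁ n * T2 p A₂ D₂ -
      T2 p A₁ D₁ * T2 p A₂ D₂ * bet p n) ≤ p * In p (A₁ ⊗ₖ A₂) (D₁ ⊗ₖ D₂) n := by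
    have e : p * (T2 p A₁ D₁ * In p A₂ D₂ n + In p A₁ D₁ n * T2 p A₂ D₂ -
        T2 p A₁ D₁ * T2 p A₂ D₂ * bet p n) =
        T2 p A₁ D₁ * (p * In p A₂ D₂ n) + (p * In p A₁ D₁ n) * T2 p A₂ D₂ -
        T2 p A₁ D₁ * T2 p A₂ D₂ * (p * bet p n) := by ring
    rw [e, l1, l2, l12, l0]
    linarith
  have k4 := le_of_mul_le_mul_left k3 hp0
  show T2 p A₁ D₁ * (In p A₂ D₂ n / bet p n) + (In p A₁ D₁ n / bet p n) * T2 p A₂ D₂ -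
      T2 p A₁ D₁ * T2 p A₂ D₂ ≤ In p (A₁ ⊗ₖ A₂) (D₁ ⊗ₖ D₂) n / bet p n
  rw [le_div_iff₀ hb]
  have e2 : (T2 p A₁ D₁ * (In p A₂ D₂ n / bet p n) + (In p A₁ D₁ n / bet p n) * T2 p A₂ D₂ -
      T2 p A₁ D₁ * T2 p A₂ D₂) * bet p n =
      T2 p A₁ D₁ * In p A₂ D₂ n + In p A₁ D₁ n * T2 p A₂ D₂ -
      T2 p A₁ D₁ * T2 p A₂ D₂ * bet p n := by
    have := hb.ne'
    field_simp
  rw [e2]
  exact k4

/-- (MOD) at the exponent `p` from (K*), the layer formula and `tau 0 ≤ T2` -/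
theorem MOD_of_kstar {p : ℝ} (hp1 : 1 < p) (hp3 : p ≤ 3) (hK : KStar p) (hL : LayerIn p)
    (hT : TauZero p) : MOD p :=
  fun ι κ _ _ _ _ A₁ D₁ A₂ D₂ h₁ h₂ m =>
    mod_pair hp1 hp3 hL hT A₁ D₁ h₁.isPair A₂ D₂ h₂.isPair (hK ι κ A₁ D₁ A₂ D₂ h₁ h₂) m

/-- `Q1` on `[2,3]` for all states, from (K*), the layer formula and `tau 0 ≤ T2` on `(2,3)` -/
theorem states_of_kstar (hK : ∀ p : ℝ, 2 < p → p < 3 → KStar p)
    (hL : ∀ p : ℝ, 2 < p → p < 3 → LayerIn p) (hT : ∀ p : ℝ, 2 < p → p < 3 → TauZero p)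
    {σ₁ : Fin 2 → Matrix ι ι ℂ} {σ₂ : Fin 2 → Matrix κ κ ℂ}
    (h₁ : ∀ x, IsDensity (σ₁ x)) (h₂ : ∀ x, IsDensity (σ₂ x)) (α : ℝ) (h2 : 2 ≤ α) (h3 : α ≤ 3) :
    Fval α σ₁ σ₂ ≤ Hsum α σ₁ σ₂ :=
  states_of_MOD (fun p a b => MOD_of_kstar (by linarith) b.le (hK p a b) (hL p a b) (hT p a b))
    h₁ h₂ α h2 h3

end Pool.Agent.RC
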