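import Pool.Agent.Lib_helper29.MOD.Asm
import Pool.Agent.Lib_helper41.MOD.TZ2
import Pool.Agent.Lib_helper90.MOD.LayZ
import Pool.Agent.Lib_helper52.KS.D

/-!
# `Q1` on `[2,3]` for all states
-/

open scoped BigOperators ComplexOrder Kronecker MatrixOrder Topology
open MeasureTheory Set Matrix Filter

namespace Pool.Agent.RC

open Pool.Agent.Lib_helper98.Renyi

variable {ι κ : Type} [Fintype ι] [DecidableEq ι] [Fintype κ] [DecidableEq κ]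

/-- (K*) for all strict pairs -/
theorem kStar {p : ℝ} (h2 : 2 < p) : KStar p :=
  fun _ _ _ _ _ _ _ _ _ _ h₁ h₂ _ hz =>
    Pool.Agent.Lib_helper28.KS.kstar h2 h₁.isPair.hermA h₁.isPair.hermD h₂.isPair.hermA
      h₂.isPair.hermD (le_of_lt hz)

theorem layerIn {p : ℝ} (hp : 0 < p) : LayerIn p :=
  fun _ _ _ _ _ h _ hn hpn => LAY.In_tau h hp hn hpn

theorem tauZero {p : ℝ} (h2 : 2 < p) (h3 : p < 3) : TauZero p :=
  fun _ _ _ _ _ h => TZ.tau_zero_le h2 h3 h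

/-- (MOD) on `(2,3)` -/
theorem mod23 {p : ℝ} (h2 : 2 < p) (h3 : p < 3) : MOD p :=
  MOD_of_kstar (by linarith) h3.le (kStar h2) (layerIn (by linarith)) (tauZero h2 h3)

/-- `Q1` on `[2,3]` for all states -/
theorem states23 {σ₁ : Fin 2 → Matrix ι ι ℂ} {σ₂ : Fin 2 → Matrix κ κ ℂ}
    (h₁ : ∀ x, IsDensity (σ₁ x)) (h₂ : ∀ x, IsDensity (σ₂ x)) (α : ℝ) (h2 : 2 ≤ α) (h3 : α ≤ 3) :
    Fval α σ₁ σ₂ ≤ Hsum α σ₁ σ₂ :=
  states_of_MOD (fun _ a b => mod23 a b) h₁ h₂ α h2 h3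

end Pool.Agent.RC
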